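import Pool.Agent.H438R2.RZ.P1
import Pool.Agent.H438R2.RZ.P3b
import Pool.Agent.H438R2.RZ.P4
import Pool.Agent.H438R2.RZ.P5
import Pool.Agent.H438R2.RZ.P6
import Pool.Agent.H438R2.RZ.P7
import Pool.Agent.H438R2.RZ.P8
import Pool.Agent.H438R2.RZ.P9
import Pool.Agent.TH73.J637
set_option autoImplicit false

/-! # The planar annulus of any radius at most one, exponent four -/

namespace Pool.Agent.Q30.BRZ

open MeasureTheory Set Complex Filter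
open scoped ENNReal Topology
open Pool.Agent.H438R2.RZ
open Pool.Agent.TH278 (mV VVS GoodF)

theorem cap_conv (ψ α β η θ : ℝ → ℝ) (hψ : Bump ψ) (hab : Arc α β) (hη : Win η)
    (hθ : ContDiff ℝ (⊤ : ℕ∞) θ) (hs : ∀ x, θ x ≠ 0 → |x| ≤ 2) (h1 : ∀ x, |x| ≤ 1 → θ x = 1) :
    ∃ C : ℝ, 0 < C ∧ ∀ L : ℝ, 10 ≤ L → ∀ a : ℤ, |(a : ℝ)| ≤ 9 / 10 * L →
      ∀ g : ℝ × ℝ → ℂ, Good g → ∀ z : ℝ × ℝ,
      ‖Pl (mC ψ α β η L a) g z‖ₑ ^ 2 ≤ ENNReal.ofReal C *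
        ∫⁻ z', ENNReal.ofReal (Bk L (sl L a) (z - z')) * ‖gA θ L a g z'‖ₑ ^ 2 :=
  cap_conv_of ψ α β η θ hψ hab hη hθ hs h1 (cap_kernel ψ α β η hψ hab hη)

theorem kak : ∃ C : ℝ, 0 < C ∧ ∀ L : ℝ, 10 ≤ L → ∀ G : ℝ × ℝ → ℝ≥0∞, Measurable G →
    ∫⁻ z : ℝ × ℝ, (⨆ a ∈ SL L, ∫⁻ z', ENNReal.ofReal (Bk L (sl L a) (z' - z)) * G z') ^ 2 ≤
      ENNReal.ofReal (C * (1 + Real.log L) ^ 2) * ∫⁻ z, G z ^ 2 := kak' kak_box

theorem arc_L4 (ψ α β : ℝ → ℝ) (hψ : Bump ψ) (hab : Arc α β) :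
    ∃ C : ℝ, 0 < C ∧ ∀ L : ℝ, 10 ≤ L → ∀ g : ℝ × ℝ → ℂ, Good g →
      ∫⁻ z, ‖Pl (mA ψ α β L) g z‖ₑ ^ 4 ≤
        ENNReal.ofReal (C * (1 + Real.log L) ^ 2) * ∫⁻ z, ‖g z‖ₑ ^ 4 :=
  arc_L4_of ψ α β hψ hab pl_planch (fun η hη hs => orth ψ α β η hψ hab hη hs)
    (fun θ h1 h2 => sq_pointwise θ h1 h2)
    (fun η θ hη h1 h2 h3 => cap_conv ψ α β η θ hψ hab hη h1 h2 h3) kak

/-- the annulus of radius one -/
theorem full_L4 (ψ : ℝ → ℝ) (hψ : Bump ψ) :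
    ∃ C : ℝ, 0 < C ∧ ∀ L : ℝ, 10 ≤ L → ∀ g : ℝ × ℝ → ℂ, Good g →
      ∫⁻ z, ‖Pl (mR ψ L) g z‖ₑ ^ 4 ≤
        ENNReal.ofReal (C * (1 + Real.log L) ^ 2) * ∫⁻ z, ‖g z‖ₑ ^ 4 :=
  P9aux.full_L4_of arc_L4 ψ hψ

/-! ### scaling -/

lemma fr2 : Module.finrank ℝ (ℝ × ℝ) = 2 := by
  rw [Module.finrank_prod, Module.finrank_self]

lemma int_smul (f : ℝ × ℝ → ℂ) {r : ℝ} (hr : 0 < r) :
    ∫ ξ, f ξ = ((r ^ 2 : ℝ) : ℂ) * ∫ x : ℝ × ℝ, f (r • x) := by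
  rw [Measure.integral_comp_smul, fr2, Complex.real_smul, ← mul_assoc, ← Complex.ofReal_mul]
  have h2 : r ^ 2 * |(r ^ 2)⁻¹| = 1 := by
    rw [abs_of_pos (by positivity)]
    field_simp
  rw [h2, Complex.ofReal_one, one_mul]

lemma lint_smul (F : ℝ × ℝ → ℝ≥0∞) {r : ℝ} (hr : 0 < r) :
    ∫⁻ x : ℝ × ℝ, F (r • x) = ENNReal.ofReal ((r ^ 2)⁻¹) * ∫⁻ x : ℝ × ℝ, F x := by
  have h1 : Measure.map (fun x : ℝ × ℝ => r • x) volume =
      ENNReal.ofReal |(r ^ 2)⁻¹| • (volume : Measure (ℝ × ℝ)) := by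
    have := Measure.map_addHaar_smul (volume : Measure (ℝ × ℝ)) hr.ne'
    rw [fr2] at this
    exact this
  have h2 : MeasurableEmbedding (fun x : ℝ × ℝ => r • x) :=
    (Homeomorph.smulOfNeZero r hr.ne').measurableEmbedding
  have h3 := h2.lintegral_map (μ := volume) F
  rw [h1, lintegral_smul_measure, abs_of_pos (by positivity)] at h3
  exact h3.symm

lemma ft_scale (g : ℝ × ℝ → ℂ) {r : ℝ} (hr : 0 < r) (η : ℝ × ℝ) :
    ft g (r • η) = ((r ^ 2 : ℝ) : ℂ)⁻¹ * ft (fun u => g (r⁻¹ • u)) η := by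
  have h1 : ft (fun u => g (r⁻¹ • u)) η = ((r ^ 2 : ℝ) : ℂ) * ft g (r • η) := by
    unfold ft
    rw [int_smul (fun z => e (-(z.1 * η.1 + z.2 * η.2)) * g (r⁻¹ • z)) hr]
    congr 1
    refine integral_congr_ae (Eventually.of_forall fun z => ?_)
    simp only [smul_smul, inv_mul_cancel₀ hr.ne', one_smul, Prod.smul_fst, Prod.smul_snd,
      smul_eq_mul]
    congr 2
    ring
  rw [h1, ← mul_assoc, inv_mul_cancel₀, one_mul]
  have : (r ^ 2 : ℝ) ≠ 0 := by positivity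
  exact_mod_cast this

/-- annuli of different radii are dilates of each other -/
lemma Pl_scale (ψ : ℝ → ℝ) (L : ℝ) {r : ℝ} (hr : 0 < r) (g : ℝ × ℝ → ℂ) (z : ℝ × ℝ) :
    Pl (mV ψ L (r ^ 2)) g z = Pl (mR ψ (L * r)) (fun u => g (r⁻¹ • u)) (r • z) := by
  unfold Pl
  rw [int_smul (fun ξ => mV ψ L (r ^ 2) ξ * ft g ξ * e (z.1 * ξ.1 + z.2 * ξ.2)) hr,
    ← integral_const_mul]
  refine integral_congr_ae (Eventually.of_forall fun ξ => ?_)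
  simp only
  rw [ft_scale g hr]
  have h1 : mV ψ L (r ^ 2) (r • ξ) = mR ψ (L * r) ξ := by
    unfold mV mR
    simp only [Prod.smul_fst, Prod.smul_snd, smul_eq_mul]
    congr 2
    ring
  have h2 : z.1 * (r • ξ).1 + z.2 * (r • ξ).2 = (r • z).1 * ξ.1 + (r • z).2 * ξ.2 := by
    simp only [Prod.smul_fst, Prod.smul_snd, smul_eq_mul]
    ring
  rw [h1, h2]
  have h3 : ((r ^ 2 : ℝ) : ℂ) ≠ 0 := by
    have : (r ^ 2 : ℝ) ≠ 0 := by positivity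
    exact_mod_cast this
  field_simp

lemma good_smul {g : ℝ × ℝ → ℂ} (hg : Good g) {r : ℝ} (hr : 0 < r) :
    Good (fun u => g (r⁻¹ • u)) := by
  obtain ⟨hm, ⟨M, hM⟩, ⟨B, hB⟩⟩ := hg
  refine ⟨hm.comp (measurable_const_smul _), ⟨M, fun z => hM _⟩, ⟨r * B, fun z hz => ?_⟩⟩
  have h := hB _ hz
  simp only [Prod.smul_fst, Prod.smul_snd, smul_eq_mul, abs_mul, abs_inv, abs_of_pos hr] at h
  constructor
  · have := mul_le_mul_of_nonneg_left h.1 hr.le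
    rwa [← mul_assoc, mul_inv_cancel₀ hr.ne', one_mul] at this
  · have := mul_le_mul_of_nonneg_left h.2 hr.le
    rwa [← mul_assoc, mul_inv_cancel₀ hr.ne', one_mul] at this

/-- all annuli inside the unit disc -/
theorem piece_L4 (ψ : ℝ → ℝ) (hψ : Bump ψ) :
    ∃ C : ℝ, 0 < C ∧ ∀ L : ℝ, 1 ≤ L → ∀ v : ℝ, v ≤ 1 → ∀ g : ℝ × ℝ → ℂ, Good g →
      ∫⁻ z, ‖Pl (mV ψ L v) g z‖ₑ ^ 4 ≤
        ENNReal.ofReal (C * (1 + Real.log L) ^ 2) * ∫⁻ z, ‖g z‖ₑ ^ 4 := by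
  obtain ⟨C1, hC1, h1⟩ := full_L4 ψ hψ
  obtain ⟨C2, hC2, h2⟩ := Pool.Agent.TH73.J637.VVS_all ψ hψ 100 (by norm_num)
  refine ⟨C1 + C2, by positivity, fun L hL v hv g hg => ?_⟩
  have hL0 : 0 < L := by linarith
  have hlog : 0 ≤ Real.log L := Real.log_nonneg hL
  by_cases hs : v ≤ 100 / L ^ 2
  · have h := h2 L hL Unit (Measure.dirac ()) (fun _ => v) measurable_const (fun _ => hs)
      (fun _ => g) ⟨hg.1.comp measurable_snd, ⟨hg.2.1.choose, fun _ z => hg.2.1.choose_spec z⟩,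
        ⟨hg.2.2.choose, fun _ z => hg.2.2.choose_spec z⟩⟩
    simp only [lintegral_dirac, ← pow_mul] at h
    refine h.trans (mul_le_mul_left (ENNReal.ofReal_le_ofReal ?_) _)
    nlinarith [mul_nonneg hC1.le hlog, mul_nonneg hC2.le hlog, sq_nonneg (Real.log L),
      mul_nonneg hC1.le (sq_nonneg (Real.log L)), mul_nonneg hC2.le (sq_nonneg (Real.log L))]
  · push Not at hs
    have hv0 : 0 < v := lt_trans (by positivity) hs
    set r : ℝ := Real.sqrt v with hr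
    have hr0 : 0 < r := Real.sqrt_pos.2 hv0
    have hr2 : r ^ 2 = v := Real.sq_sqrt hv0.le
    have hr1 : r ≤ 1 := by
      rw [hr]; exact Real.sqrt_le_one.2 hv
    have hLr : 10 ≤ L * r := by
      have h3 : (10 : ℝ) ^ 2 ≤ (L * r) ^ 2 := by
        rw [mul_pow, hr2]
        rw [div_lt_iff₀ (by positivity)] at hs
        nlinarith
      exact le_of_sq_le_sq h3 (by positivity)
    have h3 := h1 (L * r) hLr (fun u => g (r⁻¹ • u)) (good_smul hg hr0)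
    rw [← hr2]
    simp only [Pl_scale ψ L hr0]
    rw [lint_smul (fun z => ‖Pl (mR ψ (L * r)) (fun u => g (r⁻¹ • u)) z‖ₑ ^ 4) hr0]
    have h4 : ∫⁻ z, ‖g z‖ₑ ^ 4 =
        ENNReal.ofReal ((r ^ 2)⁻¹) * ∫⁻ z, ‖g (r⁻¹ • z)‖ₑ ^ 4 := by
      rw [← lint_smul (fun z => ‖g (r⁻¹ • z)‖ₑ ^ 4) hr0]
      simp only [smul_smul, inv_mul_cancel₀ hr0.ne', one_smul]
    rw [h4, mul_left_comm]
    refine mul_le_mul_right (h3.trans (mul_le_mul_left (ENNReal.ofReal_le_ofReal ?_) _)) _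
    have h5 : Real.log (L * r) ≤ Real.log L :=
      Real.log_le_log (by positivity) (by nlinarith)
    have h6 : 0 ≤ Real.log (L * r) := Real.log_nonneg (by linarith)
    have h7 : (1 + Real.log (L * r)) ^ 2 ≤ (1 + Real.log L) ^ 2 :=
      pow_le_pow_left₀ (by linarith) (by linarith) 2
    calc C1 * (1 + Real.log (L * r)) ^ 2 ≤ C1 * (1 + Real.log L) ^ 2 :=
          mul_le_mul_of_nonneg_left h7 hC1.le
      _ ≤ (C1 + C2) * (1 + Real.log L) ^ 2 :=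
          mul_le_mul_of_nonneg_right (by linarith) (by positivity)

end Pool.Agent.Q30.BRZ
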