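import Pool.Agent.Q30.BRZ.Full
import Pool.Agent.H438R2.RZ.R7
import Pool.Agent.TH280.BR.Stm
set_option autoImplicit false

/-! # Carleson-Sjolin in the plane, uniformly in the radius -/

namespace Pool.Agent.Q30.BRZ

open MeasureTheory Set Complex Filter
open scoped ENNReal Topology
open Pool.Agent.H438R2.RZ
open Pool.Agent.H438R2.RZ.P1aux (Box Box_compact)
open Pool.Agent.TH278 (mV)
open Pool.Agent.TH280.BR (UB ft2 S_PL)

/-- the multiplier -/
noncomputable def mB (δ v : ℝ) (ξ : ℝ × ℝ) : ℂ :=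
  (((max (v - (ξ.1 ^ 2 + ξ.2 ^ 2)) 0) ^ δ : ℝ) : ℂ)

lemma UB_eq (δ v : ℝ) (g : ℝ × ℝ → ℂ) (z : ℝ × ℝ) : UB δ v g z = Pl (mB δ v) g z := by
  unfold UB Pl
  refine integral_congr_ae (Eventually.of_forall fun ξ => ?_)
  change e (z.1 * ξ.1 + z.2 * ξ.2) * (mB δ v ξ * ft g ξ) = _
  ring

lemma mB_meas (δ v : ℝ) : Measurable (mB δ v) := by
  unfold mB
  exact Complex.measurable_ofReal.comp (Measurable.pow_const (by fun_prop) _)

lemma mem_box {v : ℝ} (hv : v ≤ 1) {ξ : ℝ × ℝ} (h : 0 < v - (ξ.1 ^ 2 + ξ.2 ^ 2)) :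
    ξ ∈ Box 1 := by
  rw [Box, mem_prod]
  refine ⟨abs_le.mp (abs_le_of_sq_le_sq ?_ (by norm_num)),
    abs_le.mp (abs_le_of_sq_le_sq ?_ (by norm_num))⟩
  · nlinarith [sq_nonneg ξ.2]
  · nlinarith [sq_nonneg ξ.1]

lemma mB_le {δ v : ℝ} (hδ : 0 < δ) (hv : v ≤ 1) (ξ : ℝ × ℝ) :
    ‖mB δ v ξ‖ ≤ (Box 1).indicator (fun _ => (1 : ℝ)) ξ := by
  unfold mB
  by_cases h : 0 < v - (ξ.1 ^ 2 + ξ.2 ^ 2)
  · rw [indicator_of_mem (mem_box hv h), max_eq_left h.le, Complex.norm_real,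
      Real.norm_of_nonneg (Real.rpow_nonneg h.le _)]
    exact Real.rpow_le_one h.le (by nlinarith [sq_nonneg ξ.1, sq_nonneg ξ.2]) hδ.le
  · push Not at h
    rw [max_eq_right h, Real.zero_rpow hδ.ne', Complex.ofReal_zero, norm_zero]
    exact indicator_nonneg (fun _ _ => zero_le_one) _

lemma box_int : Integrable ((Box 1).indicator (fun _ => (1 : ℝ))) := by
  rw [integrable_indicator_iff (Box_compact 1).isClosed.measurableSet]
  exact integrableOn_const (Box_compact 1).measure_lt_top.ne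

lemma mB_int {δ v : ℝ} (hδ : 0 < δ) (hv : v ≤ 1) : Integrable (mB δ v) :=
  box_int.mono' (mB_meas δ v).aestronglyMeasurable (Eventually.of_forall (mB_le hδ hv))

lemma bump_bdd {ψ : ℝ → ℝ} (h : Bump ψ) : ∃ M : ℝ, 0 ≤ M ∧ ∀ v, ‖ψ v‖ ≤ M := by
  obtain ⟨M, hM⟩ := (isCompact_Icc (a := (1 / 2 : ℝ)) (b := 2)).exists_bound_of_continuousOn
    h.1.continuous.continuousOn
  refine ⟨max M 0, le_max_right _ _, fun v => ?_⟩
  by_cases hv : ψ v = 0
  · rw [hv]; simp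
  · obtain ⟨h1, h2⟩ := h.2 v hv
    exact (hM v ⟨h1, h2⟩).trans (le_max_left _ _)

lemma mV_le {ψ : ℝ → ℝ} (hψ : Bump ψ) {M : ℝ} (hM0 : 0 ≤ M) (hM : ∀ v, ‖ψ v‖ ≤ M) {L v : ℝ}
    (hL : 0 < L) (hv : v ≤ 1) (ξ : ℝ × ℝ) :
    ‖mV ψ L v ξ‖ ≤ (Box 1).indicator (fun _ => M) ξ := by
  unfold mV
  by_cases h : 0 < v - (ξ.1 ^ 2 + ξ.2 ^ 2)
  · rw [indicator_of_mem (mem_box hv h), Complex.norm_real]
    exact hM _
  · have h1 : ψ (L ^ 2 * (v - (ξ.1 ^ 2 + ξ.2 ^ 2))) = 0 := by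
      by_contra hne
      have h2 := (hψ.2 _ hne).1
      push Not at h
      have h3 : L ^ 2 * (v - (ξ.1 ^ 2 + ξ.2 ^ 2)) ≤ 0 :=
        mul_nonpos_of_nonneg_of_nonpos (by positivity) h
      linarith
    rw [h1, Complex.ofReal_zero, norm_zero]
    exact indicator_nonneg (fun _ _ => hM0) _

/-- scales -/
noncomputable def Lj (j : ℕ) : ℝ := Real.sqrt (2 ^ j)

lemma Lj_sq (j : ℕ) : Lj j ^ 2 = 2 ^ j := Real.sq_sqrt (by positivity)

lemma Lj_one (j : ℕ) : 1 ≤ Lj j := by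
  unfold Lj
  rw [Real.one_le_sqrt]
  exact one_le_pow₀ (by norm_num)

lemma log_Lj (j : ℕ) : Real.log (Lj j) ≤ j := by
  unfold Lj
  rw [Real.log_sqrt (by positivity), Real.log_pow]
  have h1 : Real.log 2 ≤ 1 := by
    have := Real.log_two_lt_d9
    linarith
  have h2 : (0 : ℝ) ≤ j := Nat.cast_nonneg j
  have h3 : 0 ≤ Real.log 2 := Real.log_nonneg (by norm_num)
  nlinarith

lemma geo {δ : ℝ} (j : ℕ) : (2 : ℝ) ^ (-(δ * j)) = ((2 : ℝ) ^ (-δ)) ^ j := by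
  rw [← Real.rpow_natCast, ← Real.rpow_mul (by norm_num)]
  congr 1
  ring

/-- the decomposition of the operator -/
lemma hasSum_UB {δ : ℝ} (hδ : 0 < δ) {ψ : ℝ → ℝ} (hψ : Bump ψ)
    (hd : ∀ u : ℝ, 0 ≤ u → HasSum (fun j : ℕ => (2 : ℝ) ^ (-(δ * j)) * ψ (2 ^ j * (1 - u)))
      ((max (1 - u) 0) ^ δ)) {v : ℝ} (hv : v ≤ 1) {g : ℝ × ℝ → ℂ} (hg : Measurable g)
    (z : ℝ × ℝ) :
    HasSum (fun j : ℕ => (((2 : ℝ) ^ (-(δ * j)) : ℝ) : ℂ) * Pl (mV ψ (Lj j) v) g z)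
      (Pl (mB δ v) g z) := by
  obtain ⟨M, hM0, hM⟩ := bump_bdd hψ
  have hq1 : (2 : ℝ) ^ (-δ) < 1 := Real.rpow_lt_one_of_one_lt_of_neg (by norm_num) (by linarith)
  have hq0 : 0 ≤ (2 : ℝ) ^ (-δ) := Real.rpow_nonneg (by norm_num) _
  have hLp : ∀ j, 0 < Lj j := fun j => by linarith [Lj_one j]
  set F : ℕ → ℝ × ℝ → ℂ := fun j ξ => (((2 : ℝ) ^ (-(δ * j)) : ℝ) : ℂ) *
    (mV ψ (Lj j) v ξ * ft g ξ * e (z.1 * ξ.1 + z.2 * ξ.2)) with hF
  have hVint : ∀ j, Integrable (mV ψ (Lj j) v) := fun j =>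
    Pool.Agent.TH73.J637.mV_int hψ (hLp j) v
  have hFi : ∀ j, Integrable (F j) := fun j => (P9aux.Pl_int _ g (hVint j) hg z).const_mul _
  have hFb : ∀ j, ∫ ξ, ‖F j ξ‖ ≤ ((2 : ℝ) ^ (-δ)) ^ j *
      ∫ ξ, (Box 1).indicator (fun _ => M * ∫ z, ‖g z‖) ξ := by
    intro j
    rw [← integral_const_mul]
    refine integral_mono (hFi j).norm ?_ fun ξ => ?_
    · refine Integrable.const_mul ?_ _
      rw [integrable_indicator_iff (Box_compact 1).isClosed.measurableSet]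
      exact integrableOn_const (Box_compact 1).measure_lt_top.ne
    · simp only [hF]
      rw [norm_mul, Complex.norm_real, Real.norm_of_nonneg (Real.rpow_nonneg (by norm_num) _),
        geo, norm_mul, norm_mul, P9aux.e_norm, mul_one]
      refine mul_le_mul_of_nonneg_left ?_ (by positivity)
      have h1 := mV_le hψ hM0 hM (hLp j) hv ξ
      have h2 := P9aux.ft_bdd g ξ
      by_cases hξ : ξ ∈ Box 1
      · rw [indicator_of_mem hξ] at h1 ⊢
        exact mul_le_mul h1 h2 (norm_nonneg _) hM0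
      · rw [indicator_of_notMem hξ] at h1 ⊢
        have h3 : ‖mV ψ (Lj j) v ξ‖ = 0 := le_antisymm h1 (norm_nonneg _)
        rw [h3, zero_mul]
  have hs := hasSum_integral_of_summable_integral_norm (μ := (volume : Measure (ℝ × ℝ)))
    (F := F) hFi (Summable.of_nonneg_of_le (fun j => integral_nonneg fun ξ => norm_nonneg _)
      hFb ((summable_geometric_of_lt_one hq0 hq1).mul_right _))
  have e1 : (∫ ξ, ∑' j : ℕ, F j ξ) = Pl (mB δ v) g z := by
    unfold Pl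
    refine integral_congr_ae (Eventually.of_forall fun ξ => ?_)
    have h := hd (1 - v + (ξ.1 ^ 2 + ξ.2 ^ 2)) (by nlinarith [sq_nonneg ξ.1, sq_nonneg ξ.2])
    have h3 := ((Complex.hasSum_ofReal.mpr h).mul_right (ft g ξ * e (z.1 * ξ.1 + z.2 * ξ.2)))
    have h4 : (fun j : ℕ => (((2 : ℝ) ^ (-(δ * j)) *
        ψ (2 ^ j * (1 - (1 - v + (ξ.1 ^ 2 + ξ.2 ^ 2)))) : ℝ) : ℂ) *
          (ft g ξ * e (z.1 * ξ.1 + z.2 * ξ.2))) = fun j => F j ξ := by
      funext j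
      simp only [hF]
      unfold mV
      rw [Lj_sq, show (1 : ℝ) - (1 - v + (ξ.1 ^ 2 + ξ.2 ^ 2)) = v - (ξ.1 ^ 2 + ξ.2 ^ 2) by ring]
      push_cast
      ring
    rw [h4] at h3
    simp only
    rw [h3.tsum_eq]
    unfold mB
    rw [show (1 : ℝ) - (1 - v + (ξ.1 ^ 2 + ξ.2 ^ 2)) = v - (ξ.1 ^ 2 + ξ.2 ^ 2) by ring]
    ring
  rw [e1] at hs
  have e2 : (fun j : ℕ => (((2 : ℝ) ^ (-(δ * j)) : ℝ) : ℂ) * Pl (mV ψ (Lj j) v) g z) =
      fun j : ℕ => ∫ ξ, F j ξ := by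
    funext j
    unfold Pl
    rw [← integral_const_mul]
  rw [e2]
  exact hs

/-! ### bounded functions with bounded support -/

lemma eLp4 (f : ℝ × ℝ → ℂ) :
    eLpNorm f 4 volume = (∫⁻ z, ‖f z‖ₑ ^ 4) ^ (1 / 4 : ℝ) := by
  rw [eLpNorm_eq_lintegral_rpow_enorm_toReal (by norm_num) (by norm_num)]
  have h4 : (4 : ℝ≥0∞).toReal = 4 := by norm_num
  rw [h4]
  congr 1
  refine lintegral_congr fun z => ?_
  exact_mod_cast ENNReal.rpow_natCast _ 4

lemma eLp4_pow (f : ℝ × ℝ → ℂ) : eLpNorm f 4 volume ^ 4 = ∫⁻ z, ‖f z‖ₑ ^ 4 := by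
  rw [eLp4, ← ENNReal.rpow_natCast, ← ENNReal.rpow_mul]
  norm_num

lemma root4 {x y : ℝ} (hy : 0 ≤ y) (h : x ≤ y ^ 4) (a : ℝ≥0∞) :
    (ENNReal.ofReal x * a) ^ (1 / 4 : ℝ) ≤ ENNReal.ofReal y * a ^ (1 / 4 : ℝ) := by
  rw [ENNReal.mul_rpow_of_nonneg _ _ (by norm_num)]
  refine mul_le_mul_left ?_ _
  calc ENNReal.ofReal x ^ (1 / 4 : ℝ) ≤ (ENNReal.ofReal y ^ 4) ^ (1 / 4 : ℝ) := by
        refine ENNReal.rpow_le_rpow ?_ (by norm_num)
        rw [← ENNReal.ofReal_pow hy]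
        exact ENNReal.ofReal_le_ofReal h
    _ = ENNReal.ofReal y := by
        rw [← ENNReal.rpow_natCast, ← ENNReal.rpow_mul]
        norm_num

lemma good_bound {δ : ℝ} (hδ : 0 < δ) : ∃ C : ℝ, 0 < C ∧ ∀ v : ℝ, v ≤ 1 →
    ∀ g : ℝ × ℝ → ℂ, Good g →
      eLpNorm (Pl (mB δ v) g) 4 volume ≤ ENNReal.ofReal C * eLpNorm g 4 volume := by
  obtain ⟨ψ, hψ, hd⟩ := decomp δ hδ
  obtain ⟨C, hC, hp⟩ := piece_L4 ψ hψ
  have hq1 : (2 : ℝ) ^ (-δ) < 1 := Real.rpow_lt_one_of_one_lt_of_neg (by norm_num) (by linarith)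
  have hq0 : 0 ≤ (2 : ℝ) ^ (-δ) := Real.rpow_nonneg (by norm_num) _
  set q : ℝ := (2 : ℝ) ^ (-δ) with hq
  set a : ℕ → ℝ := fun j => q ^ j * ((1 + C) * (1 + j)) with ha
  have ha0 : ∀ j, 0 ≤ a j := fun j => by
    rw [ha]
    positivity
  have hsum : Summable a := by
    have h1 := summable_pow_mul_geometric_of_norm_lt_one 1
      (show ‖q‖ < 1 by rwa [Real.norm_of_nonneg hq0])
    have h2 := summable_geometric_of_lt_one hq0 hq1
    have h3 : a = fun j : ℕ => (1 + C) * (q ^ j + (j : ℝ) ^ 1 * q ^ j) := by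
      funext j
      rw [ha]
      ring
    rw [h3]
    exact (h2.add h1).mul_left _
  have hpiece : ∀ (j : ℕ) (v : ℝ), v ≤ 1 → ∀ g : ℝ × ℝ → ℂ, Good g →
      eLpNorm (Pl (mV ψ (Lj j) v) g) 4 volume ≤
        ENNReal.ofReal ((1 + C) * (1 + j)) * eLpNorm g 4 volume := by
    intro j v hv g hg
    rw [eLp4, eLp4]
    refine (ENNReal.rpow_le_rpow (hp (Lj j) (Lj_one j) v hv g hg) (by norm_num)).trans ?_
    refine root4 (by positivity) ?_ _
    have h1 : 0 ≤ Real.log (Lj j) := Real.log_nonneg (Lj_one j)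
    have h2 := log_Lj j
    have h3 : (1 + Real.log (Lj j)) ^ 2 ≤ (1 + (j : ℝ)) ^ 2 :=
      pow_le_pow_left₀ (by linarith) (by linarith) 2
    have h4 : (1 : ℝ) ≤ 1 + C := by linarith
    have h5 : (1 : ℝ) ≤ 1 + j := by
      have : (0 : ℝ) ≤ j := Nat.cast_nonneg j
      linarith
    calc C * (1 + Real.log (Lj j)) ^ 2 ≤ (1 + C) * (1 + (j : ℝ)) ^ 2 :=
          mul_le_mul (by linarith) h3 (by positivity) (by positivity)
      _ ≤ (1 + C) ^ 4 * (1 + (j : ℝ)) ^ 4 := by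
          refine mul_le_mul ?_ ?_ (by positivity) (by positivity)
          · calc (1 + C) = (1 + C) ^ 1 := (pow_one _).symm
              _ ≤ (1 + C) ^ 4 := pow_le_pow_right₀ h4 (by norm_num)
          · exact pow_le_pow_right₀ h5 (by norm_num)
      _ = ((1 + C) * (1 + j)) ^ 4 := by ring
  refine ⟨1 + ∑' j, a j, by
    have h9 : (0 : ℝ) ≤ ∑' j, a j := tsum_nonneg ha0
    linarith, fun v hv g hg => ?_⟩
  set P : ℕ → ℝ × ℝ → ℂ := fun J z => ∑ j ∈ Finset.range J,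
    (((2 : ℝ) ^ (-(δ * j)) : ℝ) : ℂ) * Pl (mV ψ (Lj j) v) g z with hP
  have hVm : ∀ j, Measurable (Pl (mV ψ (Lj j) v) g) := fun j =>
    P9aux.Pl_meas _ g (Pool.Agent.TH73.J637.mV_cont hψ _ v).measurable hg.1
  have hPm : ∀ J, AEStronglyMeasurable (P J) volume := by
    intro J
    have : Measurable (P J) := by
      rw [hP]
      exact Finset.measurable_sum _ fun j _ => (hVm j).const_mul _
    exact this.aestronglyMeasurable
  have hPlim : ∀ z, Tendsto (fun J => P J z) atTop (𝓝 (Pl (mB δ v) g z)) := fun z =>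
    (hasSum_UB hδ hψ hd hv hg.1 z).tendsto_sum_nat
  have hlim := Lp.eLpNorm_lim_le_liminf_eLpNorm (p := 4) hPm _
    (Filter.Eventually.of_forall hPlim)
  refine hlim.trans ?_
  refine liminf_le_of_le (by isBoundedDefault) ?_
  intro b hb'
  obtain ⟨J, hJ⟩ := hb'.exists
  refine hJ.trans ?_
  calc eLpNorm (P J) 4 volume
      ≤ ∑ j ∈ Finset.range J, eLpNorm (fun z => (((2 : ℝ) ^ (-(δ * j)) : ℝ) : ℂ) *
          Pl (mV ψ (Lj j) v) g z) 4 volume := by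
        have h := eLpNorm_sum_le (μ := (volume : Measure (ℝ × ℝ))) (p := 4)
          (f := fun (j : ℕ) (z : ℝ × ℝ) => (((2 : ℝ) ^ (-(δ * j)) : ℝ) : ℂ) *
            Pl (mV ψ (Lj j) v) g z) (s := Finset.range J)
          (fun j _ => ((hVm j).const_mul _).aestronglyMeasurable) (by norm_num)
        have e2 : (∑ j ∈ Finset.range J, fun (z : ℝ × ℝ) => (((2 : ℝ) ^ (-(δ * j)) : ℝ) : ℂ) *
            Pl (mV ψ (Lj j) v) g z) = P J := by
          funext x; rw [Finset.sum_apply]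
        rw [e2] at h
        exact h
    _ ≤ ∑ j ∈ Finset.range J, ENNReal.ofReal (a j) * eLpNorm g 4 volume := by
        refine Finset.sum_le_sum fun j _ => ?_
        have h := eLpNorm_const_smul (((2 : ℝ) ^ (-(δ * j)) : ℝ) : ℂ)
          (Pl (mV ψ (Lj j) v) g) 4 (volume : Measure (ℝ × ℝ))
        have e3 : ‖(((2 : ℝ) ^ (-(δ * j)) : ℝ) : ℂ)‖ₑ = ENNReal.ofReal (q ^ j) := by
          rw [← ofReal_norm, Complex.norm_real,
            Real.norm_of_nonneg (Real.rpow_nonneg (by norm_num) _), geo]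
        rw [e3] at h
        refine (le_of_eq h).trans ?_
        rw [ha]
        simp only
        rw [ENNReal.ofReal_mul (by positivity : (0 : ℝ) ≤ q ^ j), mul_assoc]
        exact mul_le_mul_right (hpiece j v hv g hg) _
    _ = ENNReal.ofReal (∑ j ∈ Finset.range J, a j) * eLpNorm g 4 volume := by
        rw [← Finset.sum_mul, ENNReal.ofReal_sum_of_nonneg]
        intro j _; exact ha0 j
    _ ≤ ENNReal.ofReal (1 + ∑' j, a j) * eLpNorm g 4 volume := by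
        refine mul_le_mul_left (ENNReal.ofReal_le_ofReal ?_) _
        have := hsum.sum_le_tsum (Finset.range J) fun j _ => ha0 j
        linarith

/-! ### integrable functions -/

/-- truncations -/
noncomputable def trn (g : ℝ × ℝ → ℂ) (n : ℕ) : ℝ × ℝ → ℂ :=
  {z : ℝ × ℝ | ‖g z‖ ≤ n ∧ |z.1| ≤ n ∧ |z.2| ≤ n}.indicator g

lemma trn_good {g : ℝ × ℝ → ℂ} (hg : Measurable g) (n : ℕ) : Good (trn g n) := by
  have hs : MeasurableSet {z : ℝ × ℝ | ‖g z‖ ≤ n ∧ |z.1| ≤ n ∧ |z.2| ≤ n} :=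
    (measurableSet_le hg.norm measurable_const).inter
      ((measurableSet_le (measurable_fst.abs) measurable_const).inter
        (measurableSet_le (measurable_snd.abs) measurable_const))
  refine ⟨hg.indicator hs, ⟨n, fun z => ?_⟩, ⟨n, fun z hz => ?_⟩⟩
  · unfold trn
    by_cases h : z ∈ {z : ℝ × ℝ | ‖g z‖ ≤ n ∧ |z.1| ≤ n ∧ |z.2| ≤ n}
    · rw [indicator_of_mem h]; exact h.1
    · rw [indicator_of_notMem h, norm_zero]; exact Nat.cast_nonneg n
  · by_contra hc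
    apply hz
    unfold trn
    rw [indicator_of_notMem]
    intro h
    exact hc h.2

lemma trn_le (g : ℝ × ℝ → ℂ) (n : ℕ) (z : ℝ × ℝ) : ‖trn g n z‖ ≤ ‖g z‖ := by
  unfold trn
  exact norm_indicator_le_norm_self _ _

lemma trn_lim (g : ℝ × ℝ → ℂ) (z : ℝ × ℝ) : Tendsto (fun n => trn g n z) atTop (𝓝 (g z)) := by
  refine tendsto_const_nhds.congr' ?_
  obtain ⟨N, hN⟩ := exists_nat_ge (max ‖g z‖ (max |z.1| |z.2|))
  filter_upwards [eventually_ge_atTop N] with n hn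
  have hn' : max ‖g z‖ (max |z.1| |z.2|) ≤ n := hN.trans (by exact_mod_cast hn)
  unfold trn
  rw [indicator_of_mem]
  exact ⟨(le_max_left _ _).trans hn', ((le_max_left _ _).trans (le_max_right _ _)).trans hn',
    ((le_max_right _ _).trans (le_max_right _ _)).trans hn'⟩

lemma ft_lim {g : ℝ × ℝ → ℂ} (hg : Measurable g) (hi : Integrable g) (ξ : ℝ × ℝ) :
    Tendsto (fun n => ft (trn g n) ξ) atTop (𝓝 (ft g ξ)) := by
  unfold ft
  refine tendsto_integral_of_dominated_convergence (fun z => ‖g z‖) (fun n => ?_) hi.norm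
    (fun n => Eventually.of_forall fun z => ?_) (Eventually.of_forall fun z => ?_)
  · exact ((P9aux.e_meas.comp (by fun_prop)).mul (trn_good hg n).1).aestronglyMeasurable
  · rw [norm_mul, P9aux.e_norm, one_mul]
    exact trn_le g n z
  · exact (trn_lim g z).const_mul _

lemma Pl_lim {δ v : ℝ} (hδ : 0 < δ) (hv : v ≤ 1) {g : ℝ × ℝ → ℂ} (hg : Measurable g)
    (hi : Integrable g) (z : ℝ × ℝ) :
    Tendsto (fun n => Pl (mB δ v) (trn g n) z) atTop (𝓝 (Pl (mB δ v) g z)) := by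
  unfold Pl
  refine tendsto_integral_of_dominated_convergence (fun ξ => ‖mB δ v ξ‖ * ∫ z, ‖g z‖)
    (fun n => ?_) ((mB_int hδ hv).norm.mul_const _)
    (fun n => Eventually.of_forall fun ξ => ?_) (Eventually.of_forall fun ξ => ?_)
  · exact (((mB_meas δ v).mul (P9aux.ft_meas _ (trn_good hg n).1)).mul
      (P9aux.e_meas.comp (by fun_prop))).aestronglyMeasurable
  · rw [norm_mul, norm_mul, P9aux.e_norm, mul_one]
    refine mul_le_mul_of_nonneg_left ((P9aux.ft_bdd _ _).trans ?_) (norm_nonneg _)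
    exact integral_mono_of_nonneg (Eventually.of_forall fun z => norm_nonneg _) hi.norm
      (Eventually.of_forall fun z => trn_le g n z)
  · exact ((ft_lim hg hi ξ).const_mul _).mul_const _

/-- **the missing step: Carleson-Sjolin for discs of any radius at most one** -/
theorem pl_thm : S_PL := by
  intro δ hδ
  obtain ⟨C, hC, hb⟩ := good_bound hδ
  refine ⟨C ^ 4, by positivity, fun v g hv hi => ?_⟩
  set g' : ℝ × ℝ → ℂ := hi.1.mk g with hg'
  have hm : Measurable g' := hi.1.stronglyMeasurable_mk.measurable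
  have hae : g =ᵐ[volume] g' := hi.1.ae_eq_mk
  have hi' : Integrable g' := hi.congr hae
  have hft : ft g = ft g' := by
    funext ξ
    unfold ft
    refine integral_congr_ae ?_
    filter_upwards [hae] with z hz
    rw [hz]
  have hU : ∀ z, UB δ v g z = Pl (mB δ v) g' z := by
    intro z
    rw [UB_eq]
    unfold Pl
    rw [hft]
  have hG : ∫⁻ z : ℝ × ℝ, ‖g z‖ₑ ^ 4 = ∫⁻ z : ℝ × ℝ, ‖g' z‖ₑ ^ 4 := by
    refine lintegral_congr_ae ?_
    filter_upwards [hae] with z hz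
    rw [hz]
  simp only [hU]
  rw [hG, ← eLp4_pow, ← eLp4_pow, ENNReal.ofReal_pow hC.le, ← mul_pow]
  refine pow_le_pow_left' ?_ 4
  have hlim := Lp.eLpNorm_lim_le_liminf_eLpNorm (μ := (volume : Measure (ℝ × ℝ))) (p := 4)
    (fun n => (P9aux.Pl_meas (mB δ v) (trn g' n) (mB_meas δ v)
      (trn_good hm n).1).aestronglyMeasurable) _
    (Filter.Eventually.of_forall (Pl_lim hδ hv hm hi'))
  refine hlim.trans ?_
  refine liminf_le_of_le (by isBoundedDefault) ?_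
  intro b hb'
  obtain ⟨J, hJ⟩ := hb'.exists
  refine hJ.trans ((hb v hv _ (trn_good hm J)).trans ?_)
  refine mul_le_mul_right (eLpNorm_mono fun z => trn_le g' J z) _

end Pool.Agent.Q30.BRZ
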